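import Mathlib
import Pool.Agent.H216R3.BalTree

set_option autoImplicit false

/-!
`S n` contains every integer `k ≥ 4 n ^ 3 + n ^ 2`; in particular it is nonempty for every `n`.
-/

namespace Pool.Agent.Results.MP_7c15de_co.CubicThreshold

open Pool.Agent.H216R3 (S mem_S_of_large)

/-- For every `n ≥ 1`, every integer `k ≥ 4 n³ + n²` belongs to `S n`: every balanced tree
`T_{n,n}` decomposes `K_{2n-1,k}`. -/
theorem result : ∀ n : ℕ, 1 ≤ n → ∀ k : ℕ, 4 * n ^ 3 + n ^ 2 ≤ k → k ∈ S n :=
  fun n hn k hk => mem_S_of_large n hn k hk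

end Pool.Agent.Results.MP_7c15de_co.CubicThreshold
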