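import Mathlib
import Pool.Agent.H216R3.BalDefs
import Pool.Agent.H586R3.OP.Stmts
import Pool.Agent.H586R3.OP.Task1
import Pool.Agent.H586R3.OP.Task2
import Pool.Agent.H586R3.OP.Task4
import Pool.Agent.H586R3.OP.Task5

set_option autoImplicit false

namespace Pool.Agent.Results.MP_7c15de_co.NoSmallOdd

open Pool.Agent.H216R3 (S)

/-- No odd `k < 2n-1` belongs to `S n`. -/
theorem result (n k : ℕ) (hk : Odd k) (h : k < 2 * n - 1) : k ∉ S n :=
  H586OP.noS H586OP.task1 H586OP.task2 H586OP.task4 H586OP.task5 n k hk h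

end Pool.Agent.Results.MP_7c15de_co.NoSmallOdd
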